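import Mathlib

set_option autoImplicit false

/-! Extension of homomorphisms along cyclic quotients. -/

namespace Pool.Agent.Helper87.ETC

section

variable {Γ E : Type} [Group Γ] [Group E]

lemma S_one {V : Subgroup Γ} {S : Γ → E} (hS : ∀ x ∈ V, ∀ y ∈ V, S (x * y) = S x * S y) :
    S 1 = 1 := by
  have h := hS 1 (one_mem _) 1 (one_mem _)
  rw [mul_one] at h
  exact left_eq_mul.1 h

lemma S_inv {V : Subgroup Γ} {S : Γ → E} (hS : ∀ x ∈ V, ∀ y ∈ V, S (x * y) = S x * S y)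
    {x : Γ} (hx : x ∈ V) : S x⁻¹ = (S x)⁻¹ := by
  apply eq_inv_of_mul_eq_one_left
  rw [← hS _ (inv_mem hx) _ hx, inv_mul_cancel, S_one hS]

lemma S_zpow {V : Subgroup Γ} {S : Γ → E} (hS : ∀ x ∈ V, ∀ y ∈ V, S (x * y) = S x * S y)
    {x : Γ} (hx : x ∈ V) (k : ℤ) : S (x ^ k) = (S x) ^ k := by
  have hn : ∀ n : ℕ, S (x ^ n) = (S x) ^ n := by
    intro n
    induction n with
    | zero => rw [pow_zero, pow_zero, S_one hS]
    | succ n ih => rw [pow_succ, pow_succ, hS _ (pow_mem hx n) _ hx, ih]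
  obtain ⟨n, rfl | rfl⟩ := k.eq_nat_or_neg
  · rw [zpow_natCast, zpow_natCast, hn]
  · rw [zpow_neg, zpow_neg, zpow_natCast, zpow_natCast, S_inv hS (pow_mem hx n), hn]

/-- the conjugation by powers -/
lemma conj_zpow {V : Subgroup Γ} {S : Γ → E} {h : Γ} {T : E}
    (hn : ∀ w ∈ V, h * w * h⁻¹ ∈ V) (hn' : ∀ w ∈ V, h⁻¹ * w * h ∈ V)
    (hT : ∀ w ∈ V, T * S w * T⁻¹ = S (h * w * h⁻¹)) (k : ℤ) :
    ∀ w ∈ V, h ^ k * w * (h ^ k)⁻¹ ∈ V ∧ T ^ k * S w * (T ^ k)⁻¹ = S (h ^ k * w * (h ^ k)⁻¹) := by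
  have hnat : ∀ n : ℕ, ∀ w ∈ V, h ^ n * w * (h ^ n)⁻¹ ∈ V ∧
      T ^ n * S w * (T ^ n)⁻¹ = S (h ^ n * w * (h ^ n)⁻¹) := by
    intro n
    induction n with
    | zero => intro w hw; simpa using hw
    | succ n ih =>
      intro w hw
      obtain ⟨h1, h2⟩ := ih _ (hn w hw)
      have e1 : h ^ (n + 1) * w * (h ^ (n + 1))⁻¹ = h ^ n * (h * w * h⁻¹) * (h ^ n)⁻¹ := by
        rw [pow_succ]; group
      have e2 : T ^ (n + 1) * S w * (T ^ (n + 1))⁻¹ = T ^ n * (T * S w * T⁻¹) * (T ^ n)⁻¹ := by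
        rw [pow_succ]; group
      rw [e1, e2, hT w hw]
      exact ⟨h1, h2⟩
  have hnat' : ∀ n : ℕ, ∀ w ∈ V, (h ^ n)⁻¹ * w * h ^ n ∈ V ∧
      (T ^ n)⁻¹ * S w * T ^ n = S ((h ^ n)⁻¹ * w * h ^ n) := by
    intro n
    induction n with
    | zero => intro w hw; simpa using hw
    | succ n ih =>
      intro w hw
      obtain ⟨h1, h2⟩ := ih w hw
      have e1 : (h ^ (n + 1))⁻¹ * w * h ^ (n + 1) = h⁻¹ * ((h ^ n)⁻¹ * w * h ^ n) * h := by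
        rw [pow_succ]; group
      have e2 : (T ^ (n + 1))⁻¹ * S w * T ^ (n + 1) = T⁻¹ * ((T ^ n)⁻¹ * S w * T ^ n) * T := by
        rw [pow_succ]; group
      rw [e1, e2, h2]
      refine ⟨hn' _ h1, ?_⟩
      have h3 := hT _ (hn' _ h1)
      have e3 : h * (h⁻¹ * ((h ^ n)⁻¹ * w * h ^ n) * h) * h⁻¹ = (h ^ n)⁻¹ * w * h ^ n := by group
      rw [e3] at h3
      rw [← h3]
      group
  obtain ⟨n, rfl | rfl⟩ := k.eq_nat_or_neg
  · simpa only [zpow_natCast] using hnat n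
  · intro w hw
    simpa only [zpow_neg, zpow_natCast, inv_inv] using hnat' n w hw

/-- the extension -/
theorem ext_hom {V U : Subgroup Γ} (hVU : V ≤ U) {h : Γ} (hU : h ∈ U) {p : ℕ}
    (hn : ∀ w ∈ V, h * w * h⁻¹ ∈ V) (hn' : ∀ w ∈ V, h⁻¹ * w * h ∈ V) (hp : h ^ p ∈ V)
    (hdiv : ∀ k : ℤ, h ^ k ∈ V → (p : ℤ) ∣ k) (hgen : ∀ x ∈ U, ∃ i : ℤ, (h ^ i)⁻¹ * x ∈ V)
    {S : Γ → E} (hS : ∀ x ∈ V, ∀ y ∈ V, S (x * y) = S x * S y) {T : E}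
    (hT : ∀ w ∈ V, T * S w * T⁻¹ = S (h * w * h⁻¹)) (hTp : T ^ p = S (h ^ p)) :
    ∃ S' : Γ → E, (∀ x ∈ U, ∀ y ∈ U, S' (x * y) = S' x * S' y) ∧
      ∀ (i : ℤ), ∀ z ∈ V, S' (h ^ i * z) = T ^ i * S z := by
  classical
  -- the relation
  have hex : ∀ x : Γ, ∃ e : E, x ∈ U → ∃ (i : ℤ), ∃ z ∈ V, x = h ^ i * z ∧ e = T ^ i * S z := by
    intro x
    by_cases hx : x ∈ U
    · obtain ⟨i, hi⟩ := hgen x hx
      exact ⟨T ^ i * S ((h ^ i)⁻¹ * x), fun _ => ⟨i, _, hi, by rw [mul_inv_cancel_left], rfl⟩⟩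
    · exact ⟨1, fun h => absurd h hx⟩
  choose S' hS' using hex
  have hTk : ∀ k : ℤ, h ^ k ∈ V → T ^ k = S (h ^ k) := by
    intro k hk
    obtain ⟨m, rfl⟩ := hdiv k hk
    rw [zpow_mul, zpow_mul, zpow_natCast, zpow_natCast, hTp, S_zpow hS hp]
  have huniq : ∀ (i j : ℤ), ∀ z ∈ V, ∀ z' ∈ V, h ^ i * z = h ^ j * z' →
      T ^ i * S z = T ^ j * S z' := by
    intro i j z hz z' hz' e
    have e1 : h ^ (-j + i) = z' * z⁻¹ := by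
      rw [zpow_add, zpow_neg, ← mul_right_inj (h ^ j), mul_inv_cancel_left, ← mul_assoc, ← e,
        mul_assoc, mul_inv_cancel, mul_one]
    have h1 : h ^ (-j + i) ∈ V := by rw [e1]; exact mul_mem hz' (inv_mem hz)
    have h2 := hTk _ h1
    rw [e1, hS _ hz' _ (inv_mem hz), S_inv hS hz, zpow_add, zpow_neg] at h2
    rw [← mul_right_inj (T ^ j)⁻¹, inv_mul_cancel_left, ← mul_assoc, h2, mul_assoc,
      inv_mul_cancel, mul_one]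
  have hval : ∀ (i : ℤ), ∀ z ∈ V, S' (h ^ i * z) = T ^ i * S z := by
    intro i z hz
    obtain ⟨j, z', hz', e, e'⟩ := hS' (h ^ i * z) (mul_mem (zpow_mem hU i) (hVU hz))
    rw [e']
    exact huniq _ _ _ hz' _ hz e.symm
  refine ⟨S', ?_, hval⟩
  intro x hx y hy
  obtain ⟨i, z, hz, rfl, e1⟩ := hS' x hx
  obtain ⟨j, z', hz', rfl, e2⟩ := hS' y hy
  obtain ⟨h1, h2⟩ := conj_zpow hn hn' hT (-j) z hz
  have e3 : h ^ i * z * (h ^ j * z') = h ^ (i + j) * ((h ^ (-j) * z * (h ^ (-j))⁻¹) * z') := by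
    rw [zpow_add, zpow_neg]
    group
  rw [e3, hval _ _ (mul_mem h1 hz'), hval _ _ hz, hval _ _ hz', hS _ h1 _ hz', ← h2, zpow_add,
    zpow_neg]
  group

/-- powers of a product -/
lemma mul_S_pow {V : Subgroup Γ} {h : Γ} 
    (hn' : ∀ w ∈ V, h⁻¹ * w * h ∈ V)
    {S : Γ → E} (hS : ∀ x ∈ V, ∀ y ∈ V, S (x * y) = S x * S y) {T : E}
    (hT : ∀ w ∈ V, T * S w * T⁻¹ = S (h * w * h⁻¹)) {x : Γ} (hx : x ∈ V) (n : ℕ) :
    (h ^ n)⁻¹ * (h * x) ^ n ∈ V ∧ (T * S x) ^ n = T ^ n * S ((h ^ n)⁻¹ * (h * x) ^ n) := by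
  induction n with
  | zero =>
    rw [pow_zero, pow_zero, pow_zero, pow_zero, inv_one, mul_one, S_one hS, mul_one]
    exact ⟨one_mem _, rfl⟩
  | succ n ih =>
    obtain ⟨h1, h2⟩ := ih
    have e1 : (h ^ (n + 1))⁻¹ * (h * x) ^ (n + 1) =
        (h⁻¹ * ((h ^ n)⁻¹ * (h * x) ^ n) * h) * x := by
      rw [pow_succ, pow_succ]
      group
    rw [e1]
    refine ⟨mul_mem (hn' _ h1) hx, ?_⟩
    rw [pow_succ, h2, hS _ (hn' _ h1) _ hx]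
    have h3 := hT _ (hn' _ h1)
    have e3 : h * (h⁻¹ * ((h ^ n)⁻¹ * (h * x) ^ n) * h) * h⁻¹ = (h ^ n)⁻¹ * (h * x) ^ n := by group
    rw [e3] at h3
    rw [← h3, pow_succ]
    group

end

end Pool.Agent.Helper87.ETC
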