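import Mathlib

set_option autoImplicit false

/-! Hilbert's theorem 90 for subgroups of infinite Galois groups. -/

namespace Pool.Agent.Helper87.ETC

section

variable {F K : Type} [Field F] [Field K] [Algebra F K]

/-- elements with the same restriction -/
lemma inv_mul_mem_fix (M : IntermediateField F K) [Normal F M] {s t : K ≃ₐ[F] K}
    (h : AlgEquiv.restrictNormalHom (F := F) (K₁ := K) M s =
      AlgEquiv.restrictNormalHom (F := F) (K₁ := K) M t) : s⁻¹ * t ∈ M.fixingSubgroup := by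
  rw [← IntermediateField.restrictNormalHom_ker, MonoidHom.mem_ker, map_mul, map_inv, h,
    inv_mul_cancel]

/-- Hilbert 90 -/
theorem h90 (M : IntermediateField F K) [FiniteDimensional F M] [Normal F M]
    (Z : Subgroup (K ≃ₐ[F] K)) (f : (K ≃ₐ[F] K) → K) (hne : ∀ s ∈ Z, f s ≠ 0)
    (hmul : ∀ s ∈ Z, ∀ t ∈ Z, f (s * t) = f s * s (f t))
    (hinv : ∀ s ∈ Z, ∀ n ∈ Z, n ∈ M.fixingSubgroup → f (s * n) = f s) :
    ∃ d : K, d ≠ 0 ∧ ∀ s ∈ Z, f s * d = s d := by
  classical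
  obtain ⟨ρ, hρ⟩ : ∃ ρ : (K ≃ₐ[F] K) →* (M ≃ₐ[F] M),
      ρ = AlgEquiv.restrictNormalHom (F := F) (K₁ := K) M := ⟨_, rfl⟩
  have hρc : ∀ (s : K ≃ₐ[F] K) (y : M), ((ρ s y : M) : K) = s y := by
    intro s y
    rw [hρ]
    exact AlgEquiv.restrictNormalHom_apply M s y
  have _ : Fintype (Z.map ρ) := Fintype.ofFinite _
  have hs : ∀ z : Z.map ρ, ∃ s ∈ Z, ρ s = z := fun z => z.2
  choose s hsZ hsρ using hs
  have hfs : ∀ (t : K ≃ₐ[F] K) (ht : t ∈ Z) (z : Z.map ρ), ρ t = z → f t = f (s z) := by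
    intro t ht z htz
    have h1 : (s z)⁻¹ * t ∈ M.fixingSubgroup := by
      apply inv_mul_mem_fix
      rw [← hρ, hsρ, htz]
    have h2 := hinv (s z) (hsZ z) ((s z)⁻¹ * t) (mul_mem (inv_mem (hsZ z)) ht) h1
    rwa [mul_inv_cancel_left] at h2
  let χ : Z.map ρ → (M →* K) := fun z =>
    { toFun := fun y => (((z : M ≃ₐ[F] M) y : M) : K)
      map_one' := by simp
      map_mul' := by intro a b; simp }
  have hχ : Function.Injective χ := by
    intro z z' h
    ext y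
    exact DFunLike.congr_fun h y
  have hli : LinearIndependent K (fun z : Z.map ρ => ((χ z : M →* K) : M → K)) :=
    (linearIndependent_monoidHom M K).comp χ hχ
  obtain ⟨y, hy⟩ : ∃ y : M, ∑ z, f (s z) * χ z y ≠ 0 := by
    by_contra hc
    push Not at hc
    have h1 := Fintype.linearIndependent_iff.1 hli (fun z => f (s z)) (by
      funext y
      rw [Finset.sum_apply]
      simpa using hc y) 1
    exact hne _ (hsZ 1) h1
  refine ⟨(∑ z, f (s z) * χ z y)⁻¹, inv_ne_zero hy, fun t ht => ?_⟩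
  have key : f t * t (∑ z, f (s z) * χ z y) = ∑ z, f (s z) * χ z y := by
    rw [map_sum, Finset.mul_sum]
    have ht' : ρ t ∈ Z.map ρ := ⟨t, ht, rfl⟩
    refine Fintype.sum_equiv (Equiv.mulLeft (⟨ρ t, ht'⟩ : Z.map ρ)) _ _ fun z => ?_
    have h1 : f (s ((Equiv.mulLeft (⟨ρ t, ht'⟩ : Z.map ρ)) z)) = f (t * s z) := by
      symm
      apply hfs _ (mul_mem ht (hsZ z))
      rw [map_mul, hsρ]
      rfl
    have h2 : χ ((Equiv.mulLeft (⟨ρ t, ht'⟩ : Z.map ρ)) z) y = t (χ z y) := by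
      have h3 := hρc t ((z : M ≃ₐ[F] M) y)
      exact h3
    rw [h1, h2, hmul t ht _ (hsZ z), map_mul, mul_assoc]
  have h0 : t (∑ z, f (s z) * χ z y) ≠ 0 := by
    rw [Ne, map_eq_zero_iff t t.injective]
    exact hy
  rw [map_inv₀, ← div_eq_mul_inv, eq_comm, inv_eq_one_div, div_eq_div_iff h0 hy, one_mul]
  exact key.symm

end

end Pool.Agent.Helper87.ETC
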