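import Mathlib
import Pool.Agent.Helper87.ETC.H90
import Pool.Agent.Helper87.ETC.Grp

set_option autoImplicit false

/-! Crossed homomorphisms which extend a given homomorphism of the kernel. -/

namespace Pool.Agent.Helper87.ETC

section

variable {F K : Type} [Field F] [Field K] [Algebra F K]

/-- the action of the Galois group on the units -/
def act : (K ≃ₐ[F] K) →* MulAut Kˣ where
  toFun s := Units.mapEquiv (s : K ≃* K)
  map_one' := by ext; rfl
  map_mul' := by intro s t; ext; rfl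

@[simp] lemma act_val (s : K ≃ₐ[F] K) (x : Kˣ) : ((act s x : Kˣ) : K) = s x := rfl

/-- a finite subextension is contained in a finite normal one -/
lemma exists_normal [IsGalois F K] (M : IntermediateField F K) [FiniteDimensional F M] :
    ∃ N : IntermediateField F K, FiniteDimensional F N ∧ Normal F N ∧
      N.fixingSubgroup ≤ M.fixingSubgroup := by
  refine ⟨IntermediateField.normalClosure F M K, inferInstance, inferInstance, ?_⟩
  exact IntermediateField.fixingSubgroup_antitone (IntermediateField.le_normalClosure M)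

lemma conj_fix {N : IntermediateField F K} [Normal F N] {n : K ≃ₐ[F] K}
    (hn : n ∈ N.fixingSubgroup) (s : K ≃ₐ[F] K) : s * n * s⁻¹ ∈ N.fixingSubgroup := by
  rw [← IntermediateField.restrictNormalHom_ker, MonoidHom.mem_ker] at hn ⊢
  rw [map_mul, map_mul, hn, mul_one, map_inv, mul_inv_cancel]

variable (F K) in
/-- the data: a group over the Galois group, with a finite part -/
structure Dat (Γ H : Type) [Group Γ] [Group H] where
  π : Γ →* (K ≃ₐ[F] K)
  η : Γ →* H
  κ : Γ → Kˣ
  surj : Function.Surjective π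
  sec : ∃ M : IntermediateField F K, FiniteDimensional F M ∧ ∀ n ∈ M.fixingSubgroup,
    ∃ m, π m = n ∧ η m = 1
  fix : ∀ c, π c = 1 → ∀ s : K ≃ₐ[F] K, act s (κ c) = κ c
  cen : ∀ c, π c = 1 → ∀ h, h * c = c * h

/-- a crossed homomorphism over `U` -/
structure Sol {Γ H : Type} [Group Γ] [Group H] (D : Dat F K Γ H) (U : Subgroup (K ≃ₐ[F] K))
    (a : Γ → Kˣ) : Prop where
  mul : ∀ x y, D.π x ∈ U → D.π y ∈ U → a (x * y) = a x * act (D.π x) (a y)
  ker : ∀ c, D.π c = 1 → a c = D.κ c
  smooth : ∃ M : IntermediateField F K, FiniteDimensional F M ∧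
    ∀ n, D.π n ∈ U → D.η n = 1 → D.π n ∈ M.fixingSubgroup → a n = 1

variable {Γ H : Type} [Group Γ] [Group H] {D : Dat F K Γ H} {U : Subgroup (K ≃ₐ[F] K)}

lemma Sol.mono {a : Γ → Kˣ} (h : Sol D U a) {V : Subgroup (K ≃ₐ[F] K)} (hV : V ≤ U) :
    Sol D V a where
  mul x y hx hy := h.mul x y (hV hx) (hV hy)
  ker := h.ker
  smooth := by
    obtain ⟨M, hM, h1⟩ := h.smooth
    exact ⟨M, hM, fun n hn => h1 n (hV hn)⟩

/-- `1` has trivial value -/
lemma Sol.one {a : Γ → Kˣ} (h : Sol D U a) : a 1 = 1 := by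
  have h1 := h.mul 1 1 (by rw [map_one]; exact one_mem _) (by rw [map_one]; exact one_mem _)
  rw [mul_one, map_one, map_one] at h1
  exact left_eq_mul.1 h1

/-- a family of fields can be replaced by one normal field -/
lemma exists_common [IsGalois F K] (M₁ M₂ : IntermediateField F K) (h₁ : FiniteDimensional F M₁)
    (h₂ : FiniteDimensional F M₂) :
    ∃ N : IntermediateField F K, FiniteDimensional F N ∧ Normal F N ∧
      N.fixingSubgroup ≤ M₁.fixingSubgroup ∧ N.fixingSubgroup ≤ M₂.fixingSubgroup := by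
  have _ := h₁
  have _ := h₂
  have : FiniteDimensional F (M₁ ⊔ M₂ : IntermediateField F K) :=
    IntermediateField.finiteDimensional_sup M₁ M₂
  obtain ⟨N, h3, h4, h5⟩ := exists_normal (M₁ ⊔ M₂)
  exact ⟨N, h3, h4, h5.trans (IntermediateField.fixingSubgroup_antitone le_sup_left),
    h5.trans (IntermediateField.fixingSubgroup_antitone le_sup_right)⟩

/-- two solutions differ by a coboundary -/
theorem Sol.cob [IsGalois F K] {a₁ a₂ : Γ → Kˣ} (h₁ : Sol D U a₁) (h₂ : Sol D U a₂) :
    ∃ d : Kˣ, ∀ x, D.π x ∈ U → a₂ x * d = a₁ x * act (D.π x) d := by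
  obtain ⟨M₁, hM₁, e₁⟩ := h₁.smooth
  obtain ⟨M₂, hM₂, e₂⟩ := h₂.smooth
  obtain ⟨M₀, hM₀, e₀⟩ := D.sec
  obtain ⟨N₁, hN₁, -, hN11, hN12⟩ := exists_common M₁ M₂ hM₁ hM₂
  obtain ⟨N, hN, hNn, hNN, hN0⟩ := exists_common N₁ M₀ hN₁ hM₀
  have hlift := D.surj
  choose r hr using hlift
  -- the quotient depends on the image only
  have hwd : ∀ x y : Γ, D.π x = D.π y → D.π x ∈ U → (a₂ y / a₁ y) = a₂ x / a₁ x := by
    intro x y hxy hx
    have hc : D.π (x⁻¹ * y) = 1 := by rw [map_mul, map_inv, hxy, inv_mul_cancel]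
    have hcU : D.π (x⁻¹ * y) ∈ U := by rw [hc]; exact one_mem _
    have e1 := h₁.mul x (x⁻¹ * y) hx hcU
    have e2 := h₂.mul x (x⁻¹ * y) hx hcU
    rw [mul_inv_cancel_left, h₁.ker _ hc] at e1
    rw [mul_inv_cancel_left, h₂.ker _ hc] at e2
    rw [e1, e2, mul_div_mul_right_eq_div]
  obtain ⟨d, hd0, hd⟩ := h90 (F := F) N U (fun s => ((a₂ (r s) / a₁ (r s) : Kˣ) : K))
    (fun s _ => Units.ne_zero _)
    (by
      intro s hs t ht
      have e3 : a₂ (r (s * t)) / a₁ (r (s * t)) = a₂ (r s * r t) / a₁ (r s * r t) := by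
        apply hwd
        · rw [map_mul, hr, hr, hr]
        · rw [map_mul, hr, hr]; exact mul_mem hs ht
      have e4 : a₂ (r (s * t)) / a₁ (r (s * t)) =
          (a₂ (r s) / a₁ (r s)) * act s (a₂ (r t) / a₁ (r t)) := by
        rw [e3, h₂.mul _ _ (by rw [hr]; exact hs) (by rw [hr]; exact ht),
          h₁.mul _ _ (by rw [hr]; exact hs) (by rw [hr]; exact ht), map_div, hr,
          mul_div_mul_comm]
      have e5 := congrArg (Units.val) e4
      rw [Units.val_mul, act_val] at e5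
      exact e5)
    (by
      intro s hs n hn hnN
      obtain ⟨m, hm1, hm2⟩ := e₀ n (hN0 hnN)
      have e3 : a₂ (r (s * n)) / a₁ (r (s * n)) = a₂ (r s * m) / a₁ (r s * m) := by
        apply hwd
        · rw [map_mul, hr, hr, hm1]
        · rw [map_mul, hr, hm1]; exact mul_mem hs hn
      have hmU : D.π m ∈ U := by rw [hm1]; exact hn
      have h3 : a₁ m = 1 := e₁ m hmU hm2 (by rw [hm1]; exact hN11 (hNN hnN))
      have h4 : a₂ m = 1 := e₂ m hmU hm2 (by rw [hm1]; exact hN12 (hNN hnN))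
      have e4 : a₂ (r (s * n)) / a₁ (r (s * n)) = a₂ (r s) / a₁ (r s) := by
        rw [e3, h₂.mul _ _ (by rw [hr]; exact hs) hmU, h₁.mul _ _ (by rw [hr]; exact hs) hmU,
          h3, h4, map_one, mul_one, mul_one]
      exact congrArg Units.val e4)
  refine ⟨Units.mk0 d hd0, fun x hx => ?_⟩
  have e6 : (a₂ x / a₁ x) * Units.mk0 d hd0 = act (D.π x) (Units.mk0 d hd0) := by
    rw [hwd (r (D.π x)) x (hr _) (by rw [hr]; exact hx)]
    ext
    rw [Units.val_mul, act_val, Units.val_mk0]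
    exact hd _ hx
  rw [← e6, mul_comm, div_mul_eq_mul_div, mul_div_cancel, mul_comm]

end

end Pool.Agent.Helper87.ETC
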