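import Mathlib
import Pool.Agent.Helper87.ETC.Sol

set_option autoImplicit false

/-! The extension step of degree `p`. -/

namespace Pool.Agent.Helper87.ETC

open SemidirectProduct

section

variable {F K : Type} [Field F] [Field K] [Algebra F K]

variable (F K) in
/-- the semilinear group -/
abbrev E0 : Type := Kˣ ⋊[act (F := F) (K := K)] (K ≃ₐ[F] K)

/-- the elements of `U` which fix `α` -/
def stab (U : Subgroup (K ≃ₐ[F] K)) (α : Kˣ) : Subgroup (K ≃ₐ[F] K) where
  carrier := {s | s ∈ U ∧ act s α = α}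
  mul_mem' := by
    rintro s t ⟨h1, h2⟩ ⟨h3, h4⟩
    refine ⟨mul_mem h1 h3, ?_⟩
    rw [map_mul, MulAut.mul_apply, h4, h2]
  one_mem' := ⟨one_mem _, by rw [map_one]; rfl⟩
  inv_mem' := by
    rintro s ⟨h1, h2⟩
    refine ⟨inv_mem h1, ?_⟩
    rw [map_inv, MulAut.inv_apply, MulEquiv.symm_apply_eq]
    exact h2.symm

lemma mem_stab {U : Subgroup (K ≃ₐ[F] K)} {α : Kˣ} {s : K ≃ₐ[F] K} :
    s ∈ stab U α ↔ s ∈ U ∧ act s α = α := Iff.rfl

lemma stab_le {U : Subgroup (K ≃ₐ[F] K)} {α : Kˣ} : stab U α ≤ U := fun _ h => h.1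

lemma act_mul' (s t : K ≃ₐ[F] K) (x : Kˣ) : act (s * t) x = act s (act t x) := by
  rw [map_mul, MulAut.mul_apply]

lemma act_inv' (s : K ≃ₐ[F] K) (x : Kˣ) : act s⁻¹ (act s x) = x := by
  rw [← act_mul', inv_mul_cancel, map_one]; rfl

lemma act_inv'' (s : K ≃ₐ[F] K) (x : Kˣ) : act s (act s⁻¹ x) = x := by
  rw [← act_mul', mul_inv_cancel, map_one]; rfl

section tau

variable {ζ α : Kˣ} {τ : K ≃ₐ[F] K}

lemma act_zpow (hζ : ∀ s : K ≃ₐ[F] K, act s ζ = ζ) (hτ : act τ α = ζ * α) (k : ℤ) :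
    act (τ ^ k) α = ζ ^ k * α := by
  have hn : ∀ n : ℕ, act (τ ^ n) α = ζ ^ n * α := by
    intro n
    induction n with
    | zero => rw [pow_zero, pow_zero, map_one, one_mul]; rfl
    | succ n ih => rw [pow_succ', act_mul', ih, map_mul, map_pow, hζ, hτ, pow_succ, mul_assoc]
  obtain ⟨n, rfl | rfl⟩ := k.eq_nat_or_neg
  · rw [zpow_natCast, zpow_natCast, hn]
  · rw [zpow_neg, zpow_neg, zpow_natCast, zpow_natCast]
    have h1 := congrArg (act (τ ^ n)⁻¹) (hn n)
    rw [act_inv', map_mul, map_pow, hζ] at h1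
    rw [eq_inv_mul_iff_mul_eq]
    exact h1.symm

lemma stab_conj {U : Subgroup (K ≃ₐ[F] K)} (hζ : ∀ s : K ≃ₐ[F] K, act s ζ = ζ)
    (hα : ∀ s ∈ U, ∃ i : ℤ, act s α = ζ ^ i * α) {s w : K ≃ₐ[F] K} (hs : s ∈ U)
    (hw : w ∈ stab U α) : s * w * s⁻¹ ∈ stab U α := by
  refine ⟨mul_mem (mul_mem hs hw.1) (inv_mem hs), ?_⟩
  obtain ⟨i, hi⟩ := hα s⁻¹ (inv_mem hs)
  rw [act_mul', act_mul', hi, map_mul (act w), map_zpow (act w), hζ, hw.2, ← hi, act_inv'']

end tau

lemma inl_conj (T : E0 F K) (f : Kˣ) : T * inl f * T⁻¹ = inl (act T.right f) := by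
  rw [mul_inv_eq_iff_eq_mul]
  ext
  · simp [mul_comm]
  · simp

lemma mul_inl (T : E0 F K) (f : Kˣ) : T * inl f = inl (act T.right f) * T := by
  rw [← inl_conj, inv_mul_cancel_right]

lemma inl_mul_pow (T : E0 F K) (f : Kˣ) (n : ℕ) :
    (inl f * T) ^ n = inl (∏ i ∈ Finset.range n, act (T.right ^ i) f) * T ^ n := by
  induction n with
  | zero => simp
  | succ n ih =>
    rw [pow_succ, ih, Finset.prod_range_succ, map_mul, pow_succ]
    have h1 : T ^ n * inl f = inl (act (T.right ^ n) f) * T ^ n := by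
      have := mul_inl (T ^ n) f
      have h2 : (T ^ n).right = T.right ^ n := map_pow (rightHom (φ := act)) T n
      rwa [h2] at this
    rw [mul_assoc (inl _) (T ^ n) (inl f * T), ← mul_assoc (T ^ n) (inl f) T, h1]
    simp only [mul_assoc]

lemma inl_inj {f g : Kˣ} (h : (inl f : E0 F K) = inl g) : f = g := inl_injective h

/-- `f` is fixed if it commutes -/
lemma act_of_comm {f : Kˣ} {S : E0 F K} (h : inl f * S = S * inl f) : act S.right f = f := by
  rw [mul_inl] at h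
  exact (inl_inj (mul_right_cancel h)).symm

variable {Γ H : Type} [Group Γ] [Group H] {D : Dat F K Γ H} {U : Subgroup (K ≃ₐ[F] K)}

/-- the semilinear operator -/
def sl (D : Dat F K Γ H) (a : Γ → Kˣ) (x : Γ) : E0 F K := ⟨a x, D.π x⟩

@[simp] lemma sl_left (a : Γ → Kˣ) (x : Γ) : (sl D a x).left = a x := rfl
@[simp] lemma sl_right (a : Γ → Kˣ) (x : Γ) : (sl D a x).right = D.π x := rfl

lemma sl_mul {a : Γ → Kˣ} (h : Sol D U a) : ∀ x ∈ U.comap D.π, ∀ y ∈ U.comap D.π,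
    sl D a (x * y) = sl D a x * sl D a y := by
  intro x hx y hy
  ext1
  · rw [sl_left, h.mul x y hx hy, mul_left, sl_left, sl_left, sl_right]
  · rw [sl_right, map_mul, mul_right, sl_right, sl_right]

/-- the conjugate solution -/
lemma sol_conj [IsGalois F K] {V : Subgroup (K ≃ₐ[F] K)} {a : Γ → Kˣ} (h : Sol D V a) (g : Γ)
    (hV : ∀ w ∈ V, (D.π g)⁻¹ * w * D.π g ∈ V) :
    Sol D V (fun z => act (D.π g) (a (g⁻¹ * z * g))) where
  mul x y hx hy := by
    have e1 : g⁻¹ * (x * y) * g = (g⁻¹ * x * g) * (g⁻¹ * y * g) := by group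
    have hx' : D.π (g⁻¹ * x * g) ∈ V := by
      rw [map_mul, map_mul, map_inv]; exact hV _ hx
    have hy' : D.π (g⁻¹ * y * g) ∈ V := by
      rw [map_mul, map_mul, map_inv]; exact hV _ hy
    rw [e1, h.mul _ _ hx' hy', map_mul, ← act_mul', ← act_mul']
    congr 3
    rw [map_mul, map_mul, map_inv]
    group
  ker c hc := by
    have e1 : g⁻¹ * c * g = c := by
      rw [mul_assoc, ← D.cen c hc g, inv_mul_cancel_left]
    change act (D.π g) (a (g⁻¹ * c * g)) = D.κ c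
    rw [e1, h.ker c hc, D.fix c hc]
  smooth := by
    obtain ⟨M, hM, h1⟩ := h.smooth
    obtain ⟨N, hN, hNn, hNM⟩ := exists_normal M
    refine ⟨N, hN, fun n hn hη hnN => ?_⟩
    have e1 : D.π (g⁻¹ * n * g) = (D.π g)⁻¹ * D.π n * D.π g := by
      rw [map_mul, map_mul, map_inv]
    have e2 : D.η (g⁻¹ * n * g) = 1 := by
      rw [map_mul, map_mul, map_inv, hη, mul_one, inv_mul_cancel]
    have e3 : (D.π g)⁻¹ * D.π n * D.π g ∈ N.fixingSubgroup := by
      have := conj_fix hnN (D.π g)⁻¹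
      rwa [inv_inv] at this
    change act (D.π g) (a (g⁻¹ * n * g)) = 1
    rw [h1 (g⁻¹ * n * g) (by rw [e1]; exact hV _ hn) e2 (hNM (by rw [e1]; exact e3)), map_one]

/-- the twisted solution -/
lemma sol_twist [IsGalois F K] {V : Subgroup (K ≃ₐ[F] K)} {a : Γ → Kˣ} (h : Sol D V a) (d : Kˣ) :
    Sol D V (fun z => d * a z * (act (D.π z) d)⁻¹) where
  mul x y hx hy := by
    change d * a (x * y) * (act (D.π (x * y)) d)⁻¹ = _
    rw [h.mul x y hx hy, map_mul D.π, act_mul', map_mul, map_mul, map_inv]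
    generalize act (D.π x) d = X
    generalize act (D.π x) (act (D.π y) d) = Y
    generalize act (D.π x) (a y) = A
    have e : X⁻¹ * (X * A * Y⁻¹) = A * Y⁻¹ := by group
    change _ = d * a x * X⁻¹ * (X * A * Y⁻¹)
    rw [mul_assoc (d * a x) X⁻¹, e]
    simp only [mul_assoc]
  ker c hc := by
    change d * a c * (act (D.π c) d)⁻¹ = D.κ c
    rw [h.ker c hc, hc, map_one]
    change d * D.κ c * d⁻¹ = D.κ c
    rw [mul_comm d, mul_inv_cancel_right]
  smooth := by
    obtain ⟨M, hM, h1⟩ := h.smooth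
    have hd : FiniteDimensional F (IntermediateField.adjoin F {(d : K)}) :=
      IntermediateField.adjoin.finiteDimensional (Algebra.IsIntegral.isIntegral _)
    obtain ⟨N, hN, hNn, hN1, hN2⟩ := exists_common M _ hM hd
    refine ⟨N, hN, fun n hn hη hnN => ?_⟩
    have h2 : act (D.π n) d = d := by
      ext
      rw [act_val]
      exact (hN2 hnN) ⟨(d : K), IntermediateField.mem_adjoin_simple_self F (d : K)⟩
    change d * a n * (act (D.π n) d)⁻¹ = 1
    rw [h1 n hn hη (hN1 hnN), h2, mul_one, mul_inv_cancel]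

end

end Pool.Agent.Helper87.ETC
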