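import Mathlib
import Pool.Agent.Helper87.ETC.Step

set_option autoImplicit false

/-! The extension step of degree `p`: the obstruction. -/

namespace Pool.Agent.Helper87.ETC

open SemidirectProduct

section

variable {F K : Type} [Field F] [Field K] [Algebra F K]

/-- `c` is a norm from the extension of the fixed field of `U` generated by `α` (or `α` is in
the fixed field) -/
def GN (p : ℕ) (ζ : Kˣ) (U : Subgroup (K ≃ₐ[F] K)) (α c : Kˣ) : Prop :=
  ∃ f : Kˣ, (∀ s ∈ U, act s α = α → act s f = f) ∧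
    ∀ τ ∈ U, act τ α = ζ * α → ∏ i ∈ Finset.range p, act (τ ^ i) f = c

variable {Γ H : Type} [Group Γ] [Group H] {D : Dat F K Γ H} {U : Subgroup (K ≃ₐ[F] K)}

lemma sl_right_pow (T : E0 F K) (n : ℕ) : (T ^ n).right = T.right ^ n :=
  map_pow (rightHom (φ := act (F := F) (K := K))) T n

lemma sl_right_zpow (T : E0 F K) (n : ℤ) : (T ^ n).right = T.right ^ n :=
  map_zpow (rightHom (φ := act (F := F) (K := K))) T n

/-- the step -/
theorem step [IsGalois F K] {p : ℕ} {ζ α : Kˣ} (hζ : ∀ s : K ≃ₐ[F] K, act s ζ = ζ)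
    (hζp : IsPrimitiveRoot ζ p) (hα : ∀ s ∈ U, ∃ i : ℤ, act s α = ζ ^ i * α)
    {τ : K ≃ₐ[F] K} (hτU : τ ∈ U) (hτ : act τ α = ζ * α) {a : Γ → Kˣ}
    (ha : Sol D (stab U α) a) :
    ∃ c : Kˣ, (∀ s ∈ U, act s c = c) ∧ (GN p ζ U α c → ∃ a', Sol D U a') ∧
      ∀ Z : Subgroup (K ≃ₐ[F] K), (∃ aZ, Sol D Z aZ) → GN p ζ (Z ⊓ U) α c := by
  classical
  obtain ⟨h, hh⟩ := D.surj τ
  -- powers of elements moving `α`
  have hpow : ∀ (V : Subgroup (K ≃ₐ[F] K)) (t : K ≃ₐ[F] K), t ∈ V → act t α = ζ * α →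
      t ^ p ∈ stab V α := by
    intro V t ht h1
    refine ⟨pow_mem ht p, ?_⟩
    have := act_zpow hζ h1 p
    rwa [zpow_natCast, zpow_natCast, hζp.pow_eq_one, one_mul] at this
  have hcU : ∀ s ∈ U, ∀ w ∈ stab U α, s * w * s⁻¹ ∈ stab U α := fun s hs w hw =>
    stab_conj hζ hα hs hw
  have hcU' : ∀ s ∈ U, ∀ w ∈ stab U α, s⁻¹ * w * s ∈ stab U α := by
    intro s hs w hw
    have := hcU s⁻¹ (inv_mem hs) w hw
    rwa [inv_inv] at this
  obtain ⟨b, hb⟩ := ha.cob (sol_conj ha h (by rw [hh]; exact hcU' τ hτU))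
  obtain ⟨V, hV⟩ : ∃ V : Subgroup Γ, V = (stab U α).comap D.π := ⟨_, rfl⟩
  have hVm : ∀ x, x ∈ V ↔ D.π x ∈ stab U α := by rw [hV]; exact fun _ => Iff.rfl
  have hS : ∀ x ∈ V, ∀ y ∈ V, sl D a (x * y) = sl D a x * sl D a y := by
    rw [hV]; exact sl_mul ha
  obtain ⟨T, hTdef⟩ : ∃ T : E0 F K, T = ⟨b, τ⟩ := ⟨_, rfl⟩
  have hTr : T.right = τ := by rw [hTdef]
  have hTl : T.left = b := by rw [hTdef]
  have hn : ∀ w ∈ V, h * w * h⁻¹ ∈ V := by
    intro w hw
    rw [hVm] at hw ⊢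
    rw [map_mul, map_mul, map_inv, hh]
    exact hcU τ hτU _ hw
  have hn' : ∀ w ∈ V, h⁻¹ * w * h ∈ V := by
    intro w hw
    rw [hVm] at hw ⊢
    rw [map_mul, map_mul, map_inv, hh]
    exact hcU' τ hτU _ hw
  have hT : ∀ w ∈ V, T * sl D a w * T⁻¹ = sl D a (h * w * h⁻¹) := by
    intro w hw
    rw [mul_inv_eq_iff_eq_mul]
    ext1
    · rw [mul_left, mul_left, hTr, hTl, sl_left, sl_left, sl_right]
      have h1 := hb (h * w * h⁻¹) ((hVm _).1 (hn w hw))
      have e1 : h⁻¹ * (h * w * h⁻¹) * h = w := by group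
      rw [e1, hh] at h1
      rw [mul_comm, h1]
    · rw [mul_right, mul_right, hTr, sl_right, sl_right, map_mul, map_mul, map_inv, hh,
        inv_mul_cancel_right]
  have hhp : h ^ p ∈ V := by
    rw [hVm, map_pow, hh]
    exact hpow U τ hτU hτ
  -- the obstruction
  obtain ⟨c, hc⟩ : ∃ c : Kˣ, sl D a (h ^ p) = inl c * T ^ p := by
    refine ⟨(sl D a (h ^ p) * (T ^ p)⁻¹).left, ?_⟩
    rw [← mul_inv_eq_iff_eq_mul]
    ext1
    · rw [left_inl]
    · rw [right_inl, mul_right, sl_right, inv_right, sl_right_pow, hTr, map_pow, hh,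
        mul_inv_cancel]
  have hcV : ∀ w ∈ V, act (D.π w) c = c := by
    intro w hw
    apply act_of_comm (S := sl D a w)
    have hw' : (h ^ p)⁻¹ * w * h ^ p ∈ V := mul_mem (mul_mem (inv_mem hhp) hw) hhp
    have h1 := (conj_zpow hn hn' hT p _ hw').2
    rw [zpow_natCast, zpow_natCast] at h1
    have e1 : h ^ p * ((h ^ p)⁻¹ * w * h ^ p) * (h ^ p)⁻¹ = w := by group
    rw [e1] at h1
    have h2 : sl D a w = sl D a (h ^ p) * sl D a ((h ^ p)⁻¹ * w * h ^ p) *
        (sl D a (h ^ p))⁻¹ := by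
      rw [← S_inv hS hhp, ← hS _ hhp _ hw', ← hS _ (mul_mem hhp hw') _ (inv_mem hhp), e1]
    rw [hc] at h2
    have h3 : sl D a w = inl c * sl D a w * (inl c)⁻¹ := by
      conv_rhs => rw [← h1]
      rw [h2]
      group
    rw [eq_mul_inv_iff_mul_eq] at h3
    exact h3.symm
  have hcτ : act τ c = c := by
    have h1 := hT _ hhp
    have e1 : h * h ^ p * h⁻¹ = h ^ p := by
      rw [← pow_succ', pow_succ, mul_inv_cancel_right]
    rw [e1, hc] at h1
    have h2 : T * (inl c * T ^ p) * T⁻¹ = inl (act τ c) * T ^ p := by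
      rw [← hTr, ← inl_conj]
      have e2 : T * (inl c * T ^ p) * T⁻¹ = T * inl c * (T ^ p * T⁻¹) := by group
      have e3 : T ^ p * T⁻¹ = T⁻¹ * T ^ p := by
        rw [eq_inv_mul_iff_mul_eq, ← mul_assoc, ← pow_succ', pow_succ, mul_inv_cancel_right]
      rw [e2, e3]
      group
    rw [h2] at h1
    exact inl_inj (mul_right_cancel h1)
  have hcs : ∀ s ∈ stab U α, act s c = c := by
    intro s hs
    obtain ⟨x, hx⟩ := D.surj s
    have := hcV x (by rw [hVm, hx]; exact hs)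
    rwa [hx] at this
  have hdec : ∀ s ∈ U, ∃ i : ℤ, (τ ^ i)⁻¹ * s ∈ stab U α := by
    intro s hs
    obtain ⟨i, hi⟩ := hα s hs
    refine ⟨i, mul_mem (inv_mem (zpow_mem hτU i)) hs, ?_⟩
    rw [act_mul', hi, ← act_zpow hζ hτ, act_inv']
  refine ⟨c, ?_, ?_, ?_⟩
  · intro s hs
    obtain ⟨i, hi⟩ := hdec s hs
    have h1 : τ ^ i ∈ stab (⊤ : Subgroup (K ≃ₐ[F] K)) c :=
      zpow_mem (show τ ∈ stab (⊤ : Subgroup (K ≃ₐ[F] K)) c from ⟨Subgroup.mem_top _, hcτ⟩) i
    have e1 : s = τ ^ i * ((τ ^ i)⁻¹ * s) := by rw [mul_inv_cancel_left]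
    rw [e1, act_mul', hcs _ hi, h1.2]
  · rintro ⟨f, hf1, hf2⟩
    have hf2' := hf2 τ hτU hτ
    have hcomm : ∀ w ∈ V, inl f * sl D a w = sl D a w * inl f := by
      intro w hw
      rw [mul_inl, sl_right, hf1 _ ((hVm w).1 hw).1 ((hVm w).1 hw).2]
    obtain ⟨S', hS'1, hS'2⟩ := ext_hom (V := V) (U := U.comap D.π) (h := h) (p := p)
      (S := sl D a) (T := inl f * T)
      (by rw [hV]; exact Subgroup.comap_mono stab_le)
      (by rw [Subgroup.mem_comap, hh]; exact hτU) hn hn' hhp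
      (by
        intro k hk
        rw [hVm, map_zpow, hh] at hk
        have h1 := hk.2
        rw [act_zpow hζ hτ, mul_eq_right] at h1
        exact (hζp.zpow_eq_one_iff_dvd k).1 h1)
      (by
        intro x hx
        obtain ⟨i, hi⟩ := hdec _ hx
        refine ⟨i, ?_⟩
        rw [hVm, map_mul, map_inv, map_zpow, hh]
        exact hi)
      hS
      (by
        intro w hw
        have e1 : inl f * T * sl D a w * (inl f * T)⁻¹ =
            inl f * (T * sl D a w * T⁻¹) * (inl f)⁻¹ := by group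
        rw [e1, hT w hw, hcomm _ (hn w hw), mul_inv_cancel_right])
      (by rw [inl_mul_pow, hTr, hf2', hc])
    refine ⟨fun x => (S' x).left, ?_⟩
    have hS'V : ∀ z ∈ V, S' z = sl D a z := by
      intro z hz
      have := hS'2 0 z hz
      rwa [zpow_zero, one_mul, zpow_zero, one_mul] at this
    have hright : ∀ x, D.π x ∈ U → (S' x).right = D.π x := by
      intro x hx
      obtain ⟨i, hi⟩ := hdec _ hx
      have hz : (h ^ i)⁻¹ * x ∈ V := by
        rw [hVm, map_mul, map_inv, map_zpow, hh]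
        exact hi
      have h1 := hS'2 i _ hz
      rw [mul_inv_cancel_left] at h1
      rw [h1, mul_right, sl_right_zpow, mul_right, right_inl, one_mul, hTr, sl_right, map_mul,
        map_inv, map_zpow, hh, mul_inv_cancel_left]
    constructor
    · intro x y hx hy
      change (S' (x * y)).left = _
      rw [hS'1 x hx y hy, mul_left, hright x hx]
    · intro c' hc'
      have h1 : c' ∈ V := by rw [hVm, hc']; exact one_mem _
      change (S' c').left = _
      rw [hS'V _ h1, sl_left, ha.ker _ hc']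
    · obtain ⟨M, hM, h1⟩ := ha.smooth
      have hd : FiniteDimensional F (IntermediateField.adjoin F {(α : K)}) :=
        IntermediateField.adjoin.finiteDimensional (Algebra.IsIntegral.isIntegral _)
      obtain ⟨N, hN, hNn, hN1, hN2⟩ := exists_common M _ hM hd
      refine ⟨N, hN, fun n hn hη hnN => ?_⟩
      have h2 : D.π n ∈ stab U α := by
        refine ⟨hn, ?_⟩
        ext
        rw [act_val]
        exact (hN2 hnN) ⟨(α : K), IntermediateField.mem_adjoin_simple_self F (α : K)⟩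
      change (S' n).left = 1
      rw [hS'V _ ((hVm n).2 h2), sl_left, h1 n h2 hη (hN1 hnN)]
  · rintro Z ⟨aZ, haZ⟩
    by_cases hex : ∃ τ' ∈ Z ⊓ U, act τ' α = ζ * α
    swap
    · push Not at hex
      exact ⟨1, fun s _ _ => map_one _, fun τ' h1 h2 => absurd h2 (hex τ' h1)⟩
    obtain ⟨τ', hτ'ZU, hτ'⟩ := hex
    obtain ⟨hτ'Z, hτ'U⟩ := Subgroup.mem_inf.1 hτ'ZU
    obtain ⟨h', hh'⟩ := D.surj τ'
    have hαZ : ∀ s ∈ Z ⊓ U, ∃ i : ℤ, act s α = ζ ^ i * α := fun s hs =>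
      hα s (Subgroup.mem_inf.1 hs).2
    have hWU : stab (Z ⊓ U) α ≤ stab U α := fun s hs => ⟨(Subgroup.mem_inf.1 hs.1).2, hs.2⟩
    have hWZ : stab (Z ⊓ U) α ≤ Z := fun s hs => (Subgroup.mem_inf.1 hs.1).1
    obtain ⟨d, hd⟩ := (ha.mono hWU).cob (haZ.mono hWZ)
    -- the twisted local solution
    have hâ := sol_twist haZ d
    obtain ⟨â, hâdef⟩ : ∃ â : Γ → Kˣ, â = fun z => d * aZ z * (act (D.π z) d)⁻¹ := ⟨_, rfl⟩
    rw [← hâdef] at hâ
    have hâV : ∀ z, D.π z ∈ stab (Z ⊓ U) α → â z = a z := by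
      intro z hz
      rw [hâdef]
      change d * aZ z * (act (D.π z) d)⁻¹ = a z
      rw [mul_inv_eq_iff_eq_mul, mul_comm d, hd z hz]
    obtain ⟨W, hW⟩ : ∃ W : Subgroup Γ, W = (stab (Z ⊓ U) α).comap D.π := ⟨_, rfl⟩
    have hWm : ∀ x, x ∈ W ↔ D.π x ∈ stab (Z ⊓ U) α := by rw [hW]; exact fun _ => Iff.rfl
    have hWV : ∀ x, x ∈ W → x ∈ V := fun x hx => (hVm x).2 (hWU ((hWm x).1 hx))
    have hSz : ∀ x ∈ Z.comap D.π, ∀ y ∈ Z.comap D.π, sl D â (x * y) = sl D â x * sl D â y :=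
      sl_mul hâ
    have hSW : ∀ x ∈ W, sl D â x = sl D a x := by
      intro x hx
      ext1
      · rw [sl_left, sl_left, hâV x ((hWm x).1 hx)]
      · rfl
    have hZ' : h' ∈ Z.comap D.π := by rw [Subgroup.mem_comap, hh']; exact hτ'Z
    have hxV : h⁻¹ * h' ∈ V := by
      rw [hVm, map_mul, map_inv, hh, hh']
      refine ⟨mul_mem (inv_mem hτU) hτ'U, ?_⟩
      rw [act_mul', hτ', ← hτ, act_inv']
    obtain ⟨T', hT'def⟩ : ∃ T' : E0 F K, T' = T * sl D a (h⁻¹ * h') := ⟨_, rfl⟩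
    have hT'r : T'.right = τ' := by
      rw [hT'def, mul_right, hTr, sl_right, map_mul, map_inv, hh, hh', mul_inv_cancel_left]
    have hT' : ∀ w ∈ V, T' * sl D a w * T'⁻¹ = sl D a (h' * w * h'⁻¹) := by
      intro w hw
      have h1 : (h⁻¹ * h') * w * (h⁻¹ * h')⁻¹ ∈ V := mul_mem (mul_mem hxV hw) (inv_mem hxV)
      have h2 := hT _ h1
      have e1 : h * (h⁻¹ * h' * w * (h⁻¹ * h')⁻¹) * h⁻¹ = h' * w * h'⁻¹ := by group
      rw [e1, hS _ (mul_mem hxV hw) _ (inv_mem hxV), hS _ hxV _ hw, S_inv hS hxV] at h2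
      rw [← h2, hT'def]
      group
    obtain ⟨f, hf⟩ : ∃ f : Kˣ, sl D â h' = inl f * T' := by
      refine ⟨(sl D â h' * T'⁻¹).left, ?_⟩
      rw [← mul_inv_eq_iff_eq_mul]
      ext1
      · rw [left_inl]
      · rw [right_inl, mul_right, sl_right, inv_right, hT'r, hh', mul_inv_cancel]
    have hconjW : ∀ s ∈ Z ⊓ U, ∀ w ∈ stab (Z ⊓ U) α, s⁻¹ * w * s ∈ stab (Z ⊓ U) α := by
      intro s hs w hw
      have := stab_conj hζ hαZ (inv_mem hs) hw
      rwa [inv_inv] at this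
    have hfW : ∀ w ∈ W, act (D.π w) f = f := by
      intro w hw
      apply act_of_comm (S := sl D a w)
      have hw' : h'⁻¹ * w * h' ∈ W := by
        rw [hWm] at hw ⊢
        rw [map_mul, map_mul, map_inv, hh']
        exact hconjW _ hτ'ZU _ hw
      have hwZ : w ∈ Z.comap D.π := hWZ ((hWm w).1 hw)
      have hw'Z : h'⁻¹ * w * h' ∈ Z.comap D.π := hWZ ((hWm _).1 hw')
      -- two computations of `sl â (w * h')`
      have h1 : sl D a w * sl D â h' = sl D â h' * sl D a (h'⁻¹ * w * h') := by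
        rw [← hSW w hw, ← hSW _ hw', ← hSz _ hwZ _ hZ', ← hSz _ hZ' _ hw'Z]
        congr 1
        group
      have h2 := hT' _ (hWV _ hw')
      have e1 : h' * (h'⁻¹ * w * h') * h'⁻¹ = w := by group
      rw [e1, mul_inv_eq_iff_eq_mul] at h2
      rw [hf] at h1
      have h3 : sl D a w * inl f * T' = inl f * sl D a w * T' := by
        rw [mul_assoc, h1, mul_assoc, h2, mul_assoc]
      exact (mul_right_cancel h3).symm
    have hfs : ∀ s ∈ stab (Z ⊓ U) α, act s f = f := by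
      intro s hs
      obtain ⟨x, hx⟩ := D.surj s
      have := hfW x (by rw [hWm, hx]; exact hs)
      rwa [hx] at this
    have hprod : ∏ i ∈ Finset.range p, act (τ' ^ i) f = c := by
      have hp' : h' ^ p ∈ W := by
        rw [hWm, map_pow, hh']
        exact hpow _ _ hτ'ZU hτ'
      have h1 : (sl D â h') ^ p = sl D a (h' ^ p) := by
        have := S_zpow hSz hZ' p
        rw [zpow_natCast, zpow_natCast] at this
        rw [← this, hSW _ hp']
      obtain ⟨h2, h3⟩ := mul_S_pow hn' hS hT hxV p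
      rw [mul_inv_cancel_left] at h2 h3
      rw [← hT'def] at h3
      rw [hf, inl_mul_pow, hT'r, h3] at h1
      have h4 : sl D a (h' ^ p) = sl D a (h ^ p) * sl D a ((h ^ p)⁻¹ * h' ^ p) := by
        rw [← hS _ hhp _ h2, mul_inv_cancel_left]
      rw [h4, hc, mul_assoc] at h1
      exact inl_inj (mul_right_cancel h1)
    refine ⟨f, fun s hs hsα => hfs s ⟨hs, hsα⟩, fun t ht hta => ?_⟩
    rw [← hprod]
    refine Finset.prod_congr rfl fun i _ => ?_
    have h1 : (τ' ^ i)⁻¹ * t ^ i ∈ stab (Z ⊓ U) α := by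
      refine ⟨mul_mem (inv_mem (pow_mem hτ'ZU i)) (pow_mem ht i), ?_⟩
      have e1 := act_zpow hζ hta i
      have e2 := act_zpow hζ hτ' i
      rw [zpow_natCast, zpow_natCast] at e1 e2
      rw [act_mul', e1, ← e2, act_inv']
    have h2 := hfs _ h1
    rw [act_mul'] at h2
    have h3 := congrArg (act (τ' ^ i)) h2
    rwa [act_inv''] at h3

end

end Pool.Agent.Helper87.ETC
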