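import Mathlib
import Pool.Agent.Helper87.ETC.Step2

set_option autoImplicit false

/-! The concrete data of a central embedding problem. -/

namespace Pool.Agent.Helper87.ETC

open SemidirectProduct

section

variable {F K : Type} [Field F] [Field K] [Algebra F K]
variable {H : Type} [Group H] {C : Subgroup H} [C.Normal]

/-- `f` is a homomorphism on `Z` which lifts `g` -/
structure LiftOn (g : (K ≃ₐ[F] K) →* H ⧸ C) (Z : Subgroup (K ≃ₐ[F] K)) (f : (K ≃ₐ[F] K) → H) :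
    Prop where
  mul : ∀ s ∈ Z, ∀ t ∈ Z, f (s * t) = f s * f t
  lift : ∀ s ∈ Z, (f s : H ⧸ C) = g s
  smooth : ∃ M : IntermediateField F K, FiniteDimensional F M ∧
    ∀ n ∈ Z, n ∈ M.fixingSubgroup → f n = 1

variable (C) in
/-- the group over the Galois group -/
def Gm (g : (K ≃ₐ[F] K) →* H ⧸ C) : Subgroup (H × (K ≃ₐ[F] K)) :=
  MonoidHom.eqLocus ((QuotientGroup.mk' C).comp (MonoidHom.fst H (K ≃ₐ[F] K)))
    (g.comp (MonoidHom.snd H (K ≃ₐ[F] K)))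

lemma mem_Gm {g : (K ≃ₐ[F] K) →* H ⧸ C} {q : H × (K ≃ₐ[F] K)} :
    q ∈ Gm C g ↔ (q.1 : H ⧸ C) = g q.2 := Iff.rfl

variable {p : ℕ} [Fact p.Prime] {ζ : Kˣ}

lemma exists_kappa (hζp : IsPrimitiveRoot ζ p) (hC : Nat.card C = p) :
    ∃ k : H → Kˣ, (∀ x ∈ C, ∀ y ∈ C, k (x * y) = k x * k y) ∧
      (∀ x ∈ C, ∀ y ∈ C, k x = k y → x = y) ∧ (∀ x, ∃ i : ℤ, k x = ζ ^ i) ∧
      ∀ i : ℤ, ∃ x ∈ C, k x = ζ ^ i := by
  classical
  have h1 : Nat.card (Subgroup.zpowers ζ) = p := by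
    rw [Nat.card_zpowers, ← hζp.eq_orderOf]
  let e : C ≃* Subgroup.zpowers ζ := mulEquivOfPrimeCardEq hC h1
  refine ⟨fun x => if h : x ∈ C then (e ⟨x, h⟩ : Kˣ) else 1, ?_, ?_, ?_, ?_⟩
  · intro x hx y hy
    simp only [dif_pos hx, dif_pos hy, dif_pos (mul_mem hx hy)]
    rw [← Subgroup.coe_mul, ← map_mul]
    rfl
  · intro x hx y hy hxy
    simp only [dif_pos hx, dif_pos hy] at hxy
    have h2 := e.injective (Subtype.ext hxy)
    exact congrArg Subtype.val h2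
  · intro x
    by_cases hx : x ∈ C
    · obtain ⟨i, hi⟩ := (e ⟨x, hx⟩).2
      refine ⟨i, ?_⟩
      simp only [dif_pos hx]
      exact hi.symm
    · exact ⟨0, by simp only [dif_neg hx, zpow_zero]⟩
  · intro i
    obtain ⟨x, hx⟩ := e.surjective ⟨ζ ^ i, i, rfl⟩
    refine ⟨x, x.2, ?_⟩
    simp only [dif_pos x.2]
    have : (⟨(x : H), x.2⟩ : C) = x := rfl
    rw [this, hx]

/-- the data -/
lemma exists_dat (hζ : ∀ s : K ≃ₐ[F] K, act s ζ = ζ) (hCc : C ≤ Subgroup.center H)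
    {g : (K ≃ₐ[F] K) →* H ⧸ C}
    (hg : ∃ M : IntermediateField F K, FiniteDimensional F M ∧ ∀ n ∈ M.fixingSubgroup, g n = 1)
    {k : H → Kˣ} (hk : ∀ x, ∃ i : ℤ, k x = ζ ^ i) :
    ∃ D : Dat F K (Gm C g) H, (∀ x : Gm C g, D.π x = (x : H × (K ≃ₐ[F] K)).2) ∧
      (∀ x : Gm C g, D.η x = (x : H × (K ≃ₐ[F] K)).1) ∧
      ∀ x : Gm C g, D.κ x = k (x : H × (K ≃ₐ[F] K)).1 := by
  refine ⟨
    { π := (MonoidHom.snd H (K ≃ₐ[F] K)).comp (Gm C g).subtype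
      η := (MonoidHom.fst H (K ≃ₐ[F] K)).comp (Gm C g).subtype
      κ := fun x => k (x : H × (K ≃ₐ[F] K)).1
      surj := ?_
      sec := ?_
      fix := ?_
      cen := ?_ }, fun _ => rfl, fun _ => rfl, fun _ => rfl⟩
  · intro s
    obtain ⟨x, hx⟩ := QuotientGroup.mk_surjective (g s)
    exact ⟨⟨(x, s), hx⟩, rfl⟩
  · obtain ⟨M, hM, h1⟩ := hg
    refine ⟨M, hM, fun n hn => ⟨⟨(1, n), ?_⟩, rfl, rfl⟩⟩
    rw [mem_Gm, h1 n hn]
    rfl
  · intro c _ s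
    obtain ⟨i, hi⟩ := hk (c : H × (K ≃ₐ[F] K)).1
    change act s (k _) = k _
    rw [hi, map_zpow, hζ]
  · rintro ⟨⟨c, s⟩, hc⟩ hcs ⟨⟨x, t⟩, hx⟩
    have hs : s = 1 := hcs
    subst hs
    have h1 : c ∈ C := by
      rw [mem_Gm] at hc
      dsimp only at hc
      rw [map_one] at hc
      exact (QuotientGroup.eq_one_iff c).1 hc
    ext1
    refine Prod.ext ?_ ?_
    · exact Subgroup.mem_center_iff.1 (hCc h1) x
    · change t * 1 = 1 * t
      rw [mul_one, one_mul]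

/-- (A) lifts give solutions -/
lemma sol_of_lift {g : (K ≃ₐ[F] K) →* H ⧸ C} (hCc : C ≤ Subgroup.center H)
    (hζ : ∀ s : K ≃ₐ[F] K, act s ζ = ζ)
    {k : H → Kˣ} (hk0 : ∀ x, ∃ i : ℤ, k x = ζ ^ i)
    (hk1 : ∀ x ∈ C, ∀ y ∈ C, k (x * y) = k x * k y)
    {D : Dat F K (Gm C g) H} (hπ : ∀ x : Gm C g, D.π x = (x : H × (K ≃ₐ[F] K)).2)
    (hη : ∀ x : Gm C g, D.η x = (x : H × (K ≃ₐ[F] K)).1)
    (hκ : ∀ x : Gm C g, D.κ x = k (x : H × (K ≃ₐ[F] K)).1)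
    {Z : Subgroup (K ≃ₐ[F] K)} {f : (K ≃ₐ[F] K) → H} (hf : LiftOn g Z f) :
    ∃ a, Sol D Z a := by
  have hf1 : f 1 = 1 := by
    have := hf.mul 1 (one_mem _) 1 (one_mem _)
    rw [mul_one] at this
    exact left_eq_mul.1 this
  have hmem : ∀ x : Gm C g, D.π x ∈ Z → (x : H × (K ≃ₐ[F] K)).1 * (f (D.π x))⁻¹ ∈ C := by
    intro x hx
    have h1 : ((x : H × (K ≃ₐ[F] K)).1 : H ⧸ C) = g (x : H × (K ≃ₐ[F] K)).2 := x.2
    have h2 := hf.lift _ hx
    rw [← QuotientGroup.eq_one_iff, QuotientGroup.mk_mul, QuotientGroup.mk_inv, h1, h2, hπ,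
      mul_inv_cancel]
  have hk1' : k 1 = 1 := by
    have := hk1 1 (one_mem _) 1 (one_mem _)
    rw [mul_one] at this
    exact left_eq_mul.1 this
  refine ⟨fun x => k ((x : H × (K ≃ₐ[F] K)).1 * (f (D.π x))⁻¹), ?_, ?_, ?_⟩
  · intro x y hx hy
    have e1 : ((x * y : Gm C g) : H × (K ≃ₐ[F] K)).1 * (f (D.π (x * y)))⁻¹ =
        ((x : H × (K ≃ₐ[F] K)).1 * (f (D.π x))⁻¹) * ((y : H × (K ≃ₐ[F] K)).1 * (f (D.π y))⁻¹) := by
      rw [map_mul, hf.mul _ hx _ hy]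
      have h1 := Subgroup.mem_center_iff.1 (hCc (hmem y hy)) (f (D.π x))⁻¹
      change (x : H × (K ≃ₐ[F] K)).1 * (y : H × (K ≃ₐ[F] K)).1 * _ = _
      rw [mul_inv_rev, mul_assoc, ← mul_assoc (y : H × (K ≃ₐ[F] K)).1, ← h1, mul_assoc]
    change k (((x * y : Gm C g) : H × (K ≃ₐ[F] K)).1 * (f (D.π (x * y)))⁻¹) = _
    rw [e1, hk1 _ (hmem x hx) _ (hmem y hy)]
    obtain ⟨i, hi⟩ := hk0 ((y : H × (K ≃ₐ[F] K)).1 * (f (D.π y))⁻¹)
    rw [hi, map_zpow, hζ]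
  · intro c hc
    change k ((c : H × (K ≃ₐ[F] K)).1 * (f (D.π c))⁻¹) = _
    rw [hc, hf1, inv_one, mul_one, hκ]
  · obtain ⟨M, hM, h1⟩ := hf.smooth
    refine ⟨M, hM, fun n hn hηn hnM => ?_⟩
    change k ((n : H × (K ≃ₐ[F] K)).1 * (f (D.π n))⁻¹) = 1
    rw [← hη, hηn, h1 _ hn hnM, inv_one, mul_one, hk1']

/-- (B) solutions give lifts -/
lemma lift_of_sol [IsGalois F K] (hroot : ∀ x : K, ∃ y : K, y ^ p = x)
    (hζp : IsPrimitiveRoot ζ p) (hCp : Nat.card C = p)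
    {g : (K ≃ₐ[F] K) →* H ⧸ C} 
    {k : H → Kˣ} (hk1 : ∀ x ∈ C, ∀ y ∈ C, k (x * y) = k x * k y)
    (hk2 : ∀ x ∈ C, ∀ y ∈ C, k x = k y → x = y) (hk3 : ∀ i : ℤ, ∃ x ∈ C, k x = ζ ^ i)
    {D : Dat F K (Gm C g) H} (hπ : ∀ x : Gm C g, D.π x = (x : H × (K ≃ₐ[F] K)).2)
    (hη : ∀ x : Gm C g, D.η x = (x : H × (K ≃ₐ[F] K)).1)
    (hκ : ∀ x : Gm C g, D.κ x = k (x : H × (K ≃ₐ[F] K)).1)
    {a : Gm C g → Kˣ} (ha : Sol D ⊤ a) : ∃ f, LiftOn g ⊤ f := by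
  classical
  have hk1' : k 1 = 1 := by
    have := hk1 1 (one_mem _) 1 (one_mem _)
    rw [mul_one] at this
    exact left_eq_mul.1 this
  have hkp : ∀ x ∈ C, k x ^ p = 1 := by
    intro x hx
    have h1 : ∀ n : ℕ, k (x ^ n) = k x ^ n := by
      intro n
      induction n with
      | zero => rw [pow_zero, pow_zero, hk1']
      | succ n ih => rw [pow_succ, pow_succ, hk1 _ (pow_mem hx n) _ hx, ih]
    have h2 : x ^ p = 1 := by
      have h3 := pow_card_eq_one' (x := (⟨x, hx⟩ : C))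
      rw [hCp] at h3
      exact congrArg Subtype.val h3
    rw [← h1, h2, hk1']
  have hker : ∀ c : Gm C g, D.π c = 1 → (c : H × (K ≃ₐ[F] K)).1 ∈ C := by
    intro c hc
    have h1 : ((c : H × (K ≃ₐ[F] K)).1 : H ⧸ C) = g (c : H × (K ≃ₐ[F] K)).2 := c.2
    rw [hπ] at hc
    rw [hc, map_one] at h1
    exact (QuotientGroup.eq_one_iff _).1 h1
  -- the `p`-th power is a coboundary
  obtain ⟨Mr, hMr, e₁⟩ := ha.smooth
  obtain ⟨M₀, hM₀, e₀⟩ := D.sec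
  obtain ⟨N, hN, hNn, hN1, hN0⟩ := exists_common Mr M₀ hMr hM₀
  have hsurj := D.surj
  choose r hr using hsurj
  have hwd : ∀ x y : Gm C g, D.π x = D.π y → a y ^ p = a x ^ p := by
    intro x y hxy
    have hc : D.π (x⁻¹ * y) = 1 := by rw [map_mul, map_inv, hxy, inv_mul_cancel]
    have e1 := ha.mul x (x⁻¹ * y) (Subgroup.mem_top _) (Subgroup.mem_top _)
    rw [mul_inv_cancel_left, ha.ker _ hc, hκ] at e1
    rw [e1, mul_pow, ← map_pow, hkp _ (hker _ hc), map_one, mul_one]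
  obtain ⟨d, hd0, hd⟩ := h90 (F := F) N ⊤ (fun s => ((a (r s) ^ p : Kˣ) : K))
    (fun s _ => Units.ne_zero _)
    (by
      intro s _ t _
      have e3 : a (r (s * t)) ^ p = a (r s) ^ p * act s (a (r t) ^ p) := by
        rw [hwd (r s * r t) (r (s * t)) (by rw [map_mul, hr, hr, hr]),
          ha.mul _ _ (Subgroup.mem_top _) (Subgroup.mem_top _), mul_pow, hr, map_pow]
      have e5 := congrArg (Units.val) e3
      rw [Units.val_mul, act_val] at e5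
      exact e5)
    (by
      intro s _ n _ hnN
      obtain ⟨m, hm1, hm2⟩ := e₀ n (hN0 hnN)
      have e4 : a (r (s * n)) ^ p = a (r s) ^ p := by
        rw [hwd (r s * m) (r (s * n)) (by rw [map_mul, hr, hr, hm1]),
          ha.mul _ _ (Subgroup.mem_top _) (Subgroup.mem_top _),
          e₁ m (Subgroup.mem_top _) hm2 (by rw [hm1]; exact hN1 hnN), map_one, mul_one]
      exact congrArg Units.val e4)
  obtain ⟨β', hβ'⟩ := hroot d
  have hβ0 : β' ≠ 0 := by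
    rintro rfl
    rw [zero_pow (Fact.out : p.Prime).ne_zero] at hβ'
    exact hd0 hβ'.symm
  obtain ⟨β, hβ⟩ : ∃ β : Kˣ, (β : K) = β' := ⟨Units.mk0 β' hβ0, Units.val_mk0 _⟩
  have key : ∀ x : Gm C g, a x ^ p * β ^ p = act (D.π x) β ^ p := by
    intro x
    rw [hwd (r (D.π x)) x (hr _)]
    ext
    rw [Units.val_mul, Units.val_pow_eq_pow_val β, Units.val_pow_eq_pow_val (act _ β), act_val,
      ← map_pow, hβ, hβ']
    exact hd _ (Subgroup.mem_top _)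
  -- roots of unity
  have hmu : ∀ z : Kˣ, z ^ p = 1 → ∃ i : ℤ, z = ζ ^ i := by
    intro z hz
    have _ : NeZero p := ⟨(Fact.out : p.Prime).ne_zero⟩
    have h1 : IsPrimitiveRoot (ζ : K) p := IsPrimitiveRoot.coe_units_iff.2 hζp
    obtain ⟨i, -, hi⟩ := h1.eq_pow_of_pow_eq_one (ξ := (z : K)) (by
      rw [← Units.val_pow_eq_pow_val, hz, Units.val_one])
    refine ⟨i, ?_⟩
    ext
    rw [zpow_natCast, Units.val_pow_eq_pow_val, hi]
  have hex : ∀ s : K ≃ₐ[F] K, ∃ x : Gm C g, D.π x = s ∧ a x * β = act s β := by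
    intro s
    obtain ⟨x, rfl⟩ := D.surj s
    obtain ⟨i, hi⟩ := hmu (act (D.π x) β / (a x * β)) (by
      rw [div_pow, mul_pow, key, div_self'])
    obtain ⟨c, hcC, hc⟩ := hk3 i
    have hmem : ((c, 1) : H × (K ≃ₐ[F] K)) ∈ Gm C g := by
      rw [mem_Gm, map_one]
      exact (QuotientGroup.eq_one_iff c).2 hcC
    have hπc : D.π ⟨(c, 1), hmem⟩ = 1 := hπ _
    refine ⟨x * ⟨(c, 1), hmem⟩, by rw [map_mul, hπc, mul_one], ?_⟩
    have h3 : act (D.π x) (k c) = k c := by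
      have := D.fix _ hπc (D.π x)
      rwa [hκ] at this
    rw [ha.mul _ _ (Subgroup.mem_top _) (Subgroup.mem_top _), ha.ker _ hπc, hκ]
    change a x * act (D.π x) (k c) * β = _
    rw [h3, hc, ← hi, mul_right_comm, mul_div_cancel]
  have huniq : ∀ x y : Gm C g, D.π x = D.π y → a x * β = a y * β → x = y := by
    intro x y hxy h
    have h1 : a x = a y := mul_right_cancel h
    have hc : D.π (x⁻¹ * y) = 1 := by rw [map_mul, map_inv, hxy, inv_mul_cancel]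
    have e1 := ha.mul x (x⁻¹ * y) (Subgroup.mem_top _) (Subgroup.mem_top _)
    rw [mul_inv_cancel_left, ha.ker _ hc, D.fix _ hc, ← h1, hκ] at e1
    have h2 : k ((x⁻¹ * y : Gm C g) : H × (K ≃ₐ[F] K)).1 = 1 := left_eq_mul.1 e1
    have h3 := hk2 _ (hker _ hc) 1 (one_mem _) (by rw [h2, hk1'])
    have h4 : x⁻¹ * y = 1 := by
      ext1
      refine Prod.ext h3 ?_
      rw [← hπ, hc]
      rfl
    rw [inv_mul_eq_one] at h4
    exact h4
  choose x hx1 hx2 using hex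
  have hxmul : ∀ s t, x (s * t) = x s * x t := by
    intro s t
    apply huniq
    · rw [map_mul, hx1, hx1, hx1]
    · rw [hx2, ha.mul _ _ (Subgroup.mem_top _) (Subgroup.mem_top _), hx1, act_mul', ← hx2 t,
        map_mul, ← hx2 s]
      ac_rfl
  refine ⟨fun s => (x s : H × (K ≃ₐ[F] K)).1, ?_, ?_, ?_⟩
  · intro s _ t _
    change ((x (s * t) : Gm C g) : H × (K ≃ₐ[F] K)).1 = _
    rw [hxmul]
    rfl
  · intro s _
    have h1 : ((x s : H × (K ≃ₐ[F] K)).1 : H ⧸ C) = g (x s : H × (K ≃ₐ[F] K)).2 := (x s).2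
    rw [h1, ← hπ, hx1]
  · have hdd : FiniteDimensional F (IntermediateField.adjoin F {(β : K)}) :=
      IntermediateField.adjoin.finiteDimensional (Algebra.IsIntegral.isIntegral _)
    obtain ⟨N', hN', hNn', hN1', hN2'⟩ := exists_common N _ hN hdd
    refine ⟨N', hN', fun n _ hn => ?_⟩
    obtain ⟨m, hm1, hm2⟩ := e₀ n (hN0 (hN1' hn))
    have h1 : act n β = β := by
      ext
      rw [act_val]
      exact (hN2' hn) ⟨(β : K), IntermediateField.mem_adjoin_simple_self F (β : K)⟩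
    have h2 : x n = m := by
      apply huniq
      · rw [hx1, hm1]
      · rw [hx2, h1, e₁ m (Subgroup.mem_top _) hm2 (by rw [hm1]; exact hN1 (hN1' hn)), one_mul]
    change ((x n : Gm C g) : H × (K ≃ₐ[F] K)).1 = 1
    rw [h2, ← hη, hm2]

end

end Pool.Agent.Helper87.ETC
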