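import Mathlib
import Pool.Agent.Helper87.ETC.Conc

set_option autoImplicit false

/-! Central embedding problems with local solutions are solvable if norms from extensions of
degree `p` satisfy a local-global principle over all finite extensions. -/

namespace Pool.Agent.Helper87.ETC

open SemidirectProduct

/-- a subgroup of index `p` -/
lemma exists_index {P : Type} [Group P] [Finite P] {p : ℕ} [hp : Fact p.Prime] {n : ℕ}
    (h : Nat.card P = p ^ (n + 1)) :
    ∃ Q : Subgroup P, Nat.card Q = p ^ n ∧ Q.Normal ∧ Nat.card (P ⧸ Q) = p := by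
  obtain ⟨Q, hQ⟩ := Sylow.exists_subgroup_card_pow_prime (G := P) p (n := n)
    (by rw [h]; exact pow_dvd_pow p (Nat.le_succ n))
  have h1 : Q.index = p := by
    have h2 := Q.card_mul_index
    rw [hQ, h, pow_succ] at h2
    exact Nat.eq_of_mul_eq_mul_left (pow_pos hp.out.pos n) h2
  refine ⟨Q, hQ, ?_, h1⟩
  apply Subgroup.normal_of_index_eq_minFac_card
  rw [h1, h, Nat.Prime.pow_minFac hp.out (Nat.succ_ne_zero n)]

section

variable {F K : Type} [Field F] [Field K] [Algebra F K] [IsGalois F K]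
variable {H : Type} [Group H] {C : Subgroup H} [C.Normal]
variable {p : ℕ} [Fact p.Prime] {ζ : Kˣ}

lemma exists_field {M : IntermediateField F K} [FiniteDimensional F M]
    {U : Subgroup (K ≃ₐ[F] K)} (h : M.fixingSubgroup ≤ U) :
    ∃ E : IntermediateField F K, FiniteDimensional F E ∧ E.fixingSubgroup = U := by
  have hopen : IsOpen (U : Set (K ≃ₐ[F] K)) :=
    Subgroup.isOpen_mono h (IntermediateField.fixingSubgroup_isOpen M)
  have hcl : IsClosed (U : Set (K ≃ₐ[F] K)) := Subgroup.isClosed_of_isOpen U hopen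
  let U' : ClosedSubgroup (K ≃ₐ[F] K) := ⟨U, hcl⟩
  refine ⟨IntermediateField.fixedField U, ?_, InfiniteGalois.fixingSubgroup_fixedField U'⟩
  have h1 : IntermediateField.fixedField U ≤ M := by
    have h2 := InfiniteGalois.fixedField_fixingSubgroup M
    rw [← h2]
    exact IntermediateField.fixedField_antitone h
  exact Module.Finite.of_injective (IntermediateField.inclusion h1).toLinearMap
    (IntermediateField.inclusion_injective h1)

/-- LIFT -/
theorem lift (hroot : ∀ x : K, ∃ y : K, y ^ p = x)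
    (hpgp : ∀ L : IntermediateField F K, FiniteDimensional F L → IsGalois F L →
      ∃ k : ℕ, Module.finrank F L = p ^ k)
    (hζ : ∀ s : K ≃ₐ[F] K, act s ζ = ζ) (hζp : IsPrimitiveRoot ζ p)
    (hCc : C ≤ Subgroup.center H) (hCp : Nat.card C = p)
    {g : (K ≃ₐ[F] K) →* H ⧸ C}
    (hg : ∃ M : IntermediateField F K, FiniteDimensional F M ∧ ∀ n ∈ M.fixingSubgroup, g n = 1)
    (ZZ : Set (Subgroup (K ≃ₐ[F] K))) (hloc : ∀ Z ∈ ZZ, ∃ f, LiftOn g Z f)
    (hXF : ∀ E : IntermediateField F K, FiniteDimensional F E → ∀ α c : Kˣ,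
      (∀ s ∈ E.fixingSubgroup, ∃ i : ℤ, act s α = ζ ^ i * α) →
      (∀ s ∈ E.fixingSubgroup, act s c = c) →
      (∀ Z ∈ ZZ, GN p ζ (Z ⊓ E.fixingSubgroup) α c) → GN p ζ E.fixingSubgroup α c) :
    ∃ f, LiftOn g ⊤ f := by
  classical
  obtain ⟨k, hk1, hk2, hk0, hk3⟩ := exists_kappa (C := C) hζp hCp
  obtain ⟨D, hπ, hη, hκ⟩ := exists_dat hζ hCc hg hk0
  have hlocS : ∀ Z ∈ ZZ, ∃ a, Sol D Z a := by
    intro Z hZ
    obtain ⟨f, hf⟩ := hloc Z hZ
    exact sol_of_lift hCc hζ hk0 hk1 hπ hη hκ hf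
  obtain ⟨M₀, hM₀, hg0⟩ := hg
  obtain ⟨M, hM, hMn, hMM⟩ := exists_normal M₀
  have hMg : IsGalois F M := { to_isSeparable := inferInstance, to_normal := hMn }
  obtain ⟨ρ, hρ⟩ : ∃ ρ : (K ≃ₐ[F] K) →* (M ≃ₐ[F] M),
      ρ = AlgEquiv.restrictNormalHom (F := F) (K₁ := K) M := ⟨_, rfl⟩
  have hρk : ρ.ker = M.fixingSubgroup := by
    rw [hρ]
    exact IntermediateField.restrictNormalHom_ker M
  have hρs : Function.Surjective ρ := by
    rw [hρ]
    exact AlgEquiv.restrictNormalHom_surjective K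
  have hle : ∀ P' : Subgroup (M ≃ₐ[F] M), M.fixingSubgroup ≤ P'.comap ρ := by
    intro P' s hs
    rw [← hρk, MonoidHom.mem_ker] at hs
    rw [Subgroup.mem_comap, hs]
    exact one_mem _
  have main : ∀ n : ℕ, ∀ P' : Subgroup (M ≃ₐ[F] M), Nat.card P' = p ^ n →
      ∃ a, Sol D (P'.comap ρ) a := by
    intro n
    induction n with
    | zero =>
      intro P' hP'
      rw [pow_zero, Subgroup.card_eq_one] at hP'
      subst hP'
      refine sol_of_lift hCc hζ hk0 hk1 hπ hη hκ (f := fun _ => 1) ⟨?_, ?_, ?_⟩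
      · intro s _ t _
        rw [mul_one]
      · intro s hs
        have hs' : s ∈ ρ.ker := hs
        rw [hρk] at hs'
        rw [hg0 s (hMM hs')]
        rfl
      · exact ⟨M, hM, fun _ _ _ => rfl⟩
    | succ n ih =>
      intro P' hP'
      obtain ⟨Q, hQ, hQn, hQc⟩ := exists_index hP'
      have hzc : Nat.card (Subgroup.zpowers ζ) = p := by
        rw [Nat.card_zpowers, ← hζp.eq_orderOf]
      let e : (P' ⧸ Q) ≃* Subgroup.zpowers ζ := mulEquivOfPrimeCardEq hQc hzc
      obtain ⟨χ, hχ⟩ : ∃ χ : P' →* Subgroup.zpowers ζ,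
          χ = e.toMonoidHom.comp (QuotientGroup.mk' Q) := ⟨_, rfl⟩
      have hχs : Function.Surjective χ := by
        rw [hχ]
        exact e.surjective.comp (QuotientGroup.mk'_surjective Q)
      have hχk : ∀ x, χ x = 1 ↔ x ∈ Q := by
        intro x
        rw [hχ]
        change e (QuotientGroup.mk' Q x) = 1 ↔ _
        rw [map_eq_one_iff e e.injective]
        exact QuotientGroup.eq_one_iff x
      obtain ⟨E, hE, hEU⟩ := exists_field (hle P')
      -- a Kummer generator
      obtain ⟨d, hd0, hd⟩ := h90 (F := F) M (P'.comap ρ)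
        (fun s => if h : ρ s ∈ P' then ((χ ⟨ρ s, h⟩ : Kˣ) : K) else 1)
        (by
          intro s hs
          have hs' : ρ s ∈ P' := hs
          rw [dif_pos hs']
          exact Units.ne_zero _)
        (by
          intro s hs t ht
          have hs' : ρ s ∈ P' := hs
          have ht' : ρ t ∈ P' := ht
          have hst' : ρ (s * t) ∈ P' := by rw [map_mul]; exact mul_mem hs' ht'
          rw [dif_pos hs', dif_pos ht', dif_pos hst']
          have e1 : (⟨ρ (s * t), hst'⟩ : P') = ⟨ρ s, hs'⟩ * ⟨ρ t, ht'⟩ :=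
            Subtype.ext (map_mul ρ s t)
          obtain ⟨i, hi⟩ := (χ ⟨ρ t, ht'⟩).2
          have e2 : act s (χ ⟨ρ t, ht'⟩ : Kˣ) = (χ ⟨ρ t, ht'⟩ : Kˣ) := by
            rw [← hi]
            change act s (ζ ^ i) = ζ ^ i
            rw [map_zpow, hζ]
          have e3 := congrArg Units.val e2
          rw [act_val] at e3
          rw [e1, map_mul, Subgroup.coe_mul, Units.val_mul, e3])
        (by
          intro s hs t _ ht
          have hs' : ρ s ∈ P' := hs
          rw [← hρk, MonoidHom.mem_ker] at ht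
          have e1 : ρ (s * t) = ρ s := by rw [map_mul, ht, mul_one]
          rw [dif_pos hs', dif_pos (by rw [e1]; exact hs')]
          congr 3
          exact Subtype.ext e1)
      obtain ⟨α, hα⟩ : ∃ α : Kˣ, (α : K) = d := ⟨Units.mk0 d hd0, Units.val_mk0 _⟩
      have hαs : ∀ (s : K ≃ₐ[F] K) (hs : ρ s ∈ P'), act s α = (χ ⟨ρ s, hs⟩ : Kˣ) * α := by
        intro s hs
        ext
        rw [act_val, Units.val_mul, hα, ← hd s hs, dif_pos hs]
      obtain ⟨x, hx⟩ := hχs ⟨ζ, 1, zpow_one _⟩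
      obtain ⟨τ, hτ⟩ := hρs x
      have hτP : ρ τ ∈ P' := by rw [hτ]; exact x.2
      have hτα : act τ α = ζ * α := by
        rw [hαs τ hτP]
        have : (⟨ρ τ, hτP⟩ : P') = x := Subtype.ext hτ
        rw [this, hx]
      have hstab : stab (P'.comap ρ) α = (Q.map P'.subtype).comap ρ := by
        ext s
        rw [mem_stab, Subgroup.mem_comap, Subgroup.mem_comap]
        constructor
        · rintro ⟨hs, hs1⟩
          rw [hαs s hs, mul_eq_right] at hs1
          have h1 : χ ⟨ρ s, hs⟩ = 1 := Subtype.ext hs1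
          exact ⟨_, (hχk _).1 h1, rfl⟩
        · rintro ⟨y, hy, hy1⟩
          have hs : ρ s ∈ P' := by rw [← hy1]; exact y.2
          refine ⟨hs, ?_⟩
          have h1 : (⟨ρ s, hs⟩ : P') = y := Subtype.ext hy1.symm
          rw [hαs s hs, h1, (hχk y).2 hy]
          exact one_mul _
      obtain ⟨a, ha⟩ := ih (Q.map P'.subtype) (by
        rw [Nat.card_congr (Q.equivMapOfInjective P'.subtype P'.subtype_injective).toEquiv.symm, hQ])
      rw [← hstab] at ha
      have hαi : ∀ s ∈ P'.comap ρ, ∃ i : ℤ, act s α = ζ ^ i * α := by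
        intro s hs
        obtain ⟨i, hi⟩ := (χ ⟨ρ s, hs⟩).2
        exact ⟨i, by rw [hαs s hs, ← hi]⟩
      obtain ⟨c, hc1, hc2, hc3⟩ := step hζ hζp hαi (show τ ∈ P'.comap ρ from hτP) hτα ha
      apply hc2
      rw [← hEU] at hαi hc1 hc3 ⊢
      exact hXF E hE α c hαi hc1 fun Z hZ => hc3 Z (hlocS Z hZ)
  obtain ⟨m, hm⟩ := hpgp M hM hMg
  obtain ⟨a, ha⟩ := main m ⊤ (by rw [Subgroup.card_top, IsGalois.card_aut_eq_finrank, hm])
  rw [Subgroup.comap_top] at ha
  exact lift_of_sol hroot hζp hCp hk1 hk2 hk3 hπ hη hκ ha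

end

end Pool.Agent.Helper87.ETC
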